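import Pool.Agent.Q240.SD.Stm

/-!
# Project SD (helper240), part Dn: the equivalence with density theorems
-/

set_option autoImplicit false

namespace Pool.Agent.Q31.SD

open Filter Topology Finset MeasureTheory
open Pool.Agent.Y23 (TT Fa N2 QQ Zt mu IsZ)
open Pool.Agent.Q240.EW (Bump Ps)
open Pool.Agent.Q240.SD

/-! ### continuity -/

theorem near {D : ℝ → ℝ} (hD : ContinuousOn D (Set.Ioc (1 / 2) 1)) {σ ε : ℝ} (h1 : 1 / 2 < σ) (h2 : σ ≤ 1)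
    (he : 0 < ε) : ∃ d : ℝ, 0 < d ∧ ∀ δ : ℝ, 0 < δ → δ < d → 1 / 2 < σ - δ ∧ D (σ - δ) < D σ + ε := by
  obtain ⟨r, hr, h⟩ := Metric.continuousOn_iff.1 hD σ ⟨h1, h2⟩ ε he
  refine ⟨min r (σ - 1 / 2), lt_min hr (by linarith), fun δ h3 h4 => ?_⟩
  have h5 : δ < r := lt_of_lt_of_le h4 (min_le_left _ _)
  have h6 : δ < σ - 1 / 2 := lt_of_lt_of_le h4 (min_le_right _ _)
  refine ⟨by linarith, ?_⟩
  have h7 := h (σ - δ) ⟨by linarith, by linarith⟩ (by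
    rw [Real.dist_eq, show σ - δ - σ = -δ by ring, abs_neg, abs_of_pos h3]
    exact h5)
  rw [Real.dist_eq] at h7
  have := (abs_lt.1 h7).2
  linarith

theorem Ht_pos (C a : ℝ) : 0 < Ht C a := Real.exp_pos _

theorem Ht_tendsto {C : ℝ} (hC : 0 < C) : Tendsto (Ht C) atTop atTop := by
  show Tendsto (fun a : ℝ => Real.exp (2 * a / C)) atTop atTop
  refine Real.tendsto_exp_atTop.comp ?_
  have h : (fun a : ℝ => 2 * a / C) = fun a : ℝ => (2 / C) * a := by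
    funext a
    ring
  rw [h]
  exact tendsto_id.const_mul_atTop (by positivity)

theorem Ht_log {C T : ℝ} (hC : 0 < C) (hT : 0 < T) : Ht C (C * Real.log T / 2) = T := by
  unfold Ht
  rw [show 2 * (C * Real.log T / 2) / C = Real.log T by field_simp, Real.exp_log hT]

/-! ### the linear forms -/

/-- the subspace of the square integrable functions on `[-a, a]` -/
def FS (a : ℝ) : Submodule ℂ (ℝ → ℂ) where
  carrier := {g | Fa a g}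
  add_mem' := fun {f g} hf hg => Pool.Agent.Y23.Fa.add hf hg
  zero_mem' := Pool.Agent.Y23.Fa.zero
  smul_mem' := fun c f hf => Pool.Agent.Y23.Fa.smul hf c

/-- the transform as a linear form on this subspace -/
noncomputable def TL (a : ℝ) (w : ℂ) : FS a →ₗ[ℂ] ℂ where
  toFun g := TT g.1 w
  map_add' f g := Pool.Agent.Y23.TT_add f.2 g.2 w
  map_smul' c f := Pool.Agent.Y23.TT_smul f.1 c w

theorem ext_TT (a : ℝ) (w : ℂ) : ∃ L : (ℝ → ℂ) →ₗ[ℂ] ℂ, ∀ g, Fa a g → L g = TT g w := by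
  obtain ⟨L, hL⟩ := LinearMap.exists_extend (TL a w)
  exact ⟨L, fun g hg => LinearMap.congr_fun hL ⟨g, hg⟩⟩

/-! ### counting -/

theorem card_le_mu {F : Finset ℂ} (h : ∀ ρ ∈ F, IsZ ρ) : F.card ≤ ∑ ρ ∈ F, mu ρ := by
  rw [Finset.card_eq_sum_ones]
  exact Finset.sum_le_sum fun ρ hρ => Pool.Agent.Y23.mu_pos (h ρ hρ)

theorem mem_Zr {σ T : ℝ} {ρ : ℂ} : ρ ∈ Zr σ T ↔ riemannZeta ρ = 0 ∧ σ ≤ ρ.re ∧ 0 < ρ.im ∧ ρ.im ≤ T := Iff.rfl

theorem card_le {σ T B : ℝ} (h : AtMost (Zr σ T) B) {F : Finset ℂ}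
    (hF : ∀ ρ ∈ F, IsZ ρ ∧ σ ≤ ρ.re ∧ 0 < ρ.im ∧ ρ.im ≤ T) : (F.card : ℝ) ≤ B := by
  have h1 := h F fun ρ hρ => mem_Zr.2 ⟨(hF ρ hρ).1.1, (hF ρ hρ).2⟩
  refine le_trans ?_ h1
  exact_mod_cast card_le_mu fun ρ hρ => (hF ρ hρ).1

theorem card_le_neg {σ T B : ℝ} (h : AtMost (Zr σ T) B) {F : Finset ℂ}
    (hF : ∀ ρ ∈ F, IsZ ρ ∧ σ ≤ ρ.re ∧ ρ.im < 0 ∧ -T ≤ ρ.im) : (F.card : ℝ) ≤ B := by
  classical
  have h1 : (F.image (starRingEnd ℂ)).card = F.card :=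
    Finset.card_image_of_injective _ (starRingEnd ℂ).injective
  rw [← h1]
  refine card_le h fun ρ hρ => ?_
  obtain ⟨z, hz, rfl⟩ := Finset.mem_image.1 hρ
  obtain ⟨h2, h3, h4, h5⟩ := hF z hz
  refine ⟨Pool.Agent.Y23.isZ_conj h2, ?_, ?_, ?_⟩
  · rw [Complex.conj_re]; exact h3
  · rw [Complex.conj_im]; linarith
  · rw [Complex.conj_im]; linarith

/-- the number of the zeros in a symmetric window -/
theorem card_all {σ T B : ℝ} (h : AtMost (Zr σ T) B) {F : Finset ℂ}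
    (hF : ∀ ρ ∈ F, IsZ ρ ∧ σ ≤ ρ.re ∧ |ρ.im| ≤ T) :
    (F.card : ℝ) ≤ 2 * B + ((Pool.Agent.Y23.isZ_finite 0).toFinset.card : ℝ) := by
  classical
  set P := F.filter fun ρ => 0 < ρ.im with hP
  set N := F.filter fun ρ => ρ.im < 0 with hN
  have hsub : F ⊆ (P ∪ N) ∪ (Pool.Agent.Y23.isZ_finite 0).toFinset := by
    intro ρ hρ
    rcases lt_trichotomy ρ.im 0 with h1 | h1 | h1
    · exact mem_union_left _ (mem_union_right _ (mem_filter.2 ⟨hρ, h1⟩))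
    · refine mem_union_right _ ?_
      rw [Set.Finite.mem_toFinset]
      exact ⟨(hF ρ hρ).1, by rw [h1, abs_zero]⟩
    · exact mem_union_left _ (mem_union_left _ (mem_filter.2 ⟨hρ, h1⟩))
  have h1 : F.card ≤ P.card + N.card + (Pool.Agent.Y23.isZ_finite 0).toFinset.card :=
    (card_le_card hsub).trans ((card_union_le _ _).trans (Nat.add_le_add_right (card_union_le _ _) _))
  have h2 : (P.card : ℝ) ≤ B := card_le h fun ρ hρ => by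
    obtain ⟨h3, h4⟩ := mem_filter.1 hρ
    obtain ⟨h5, h6, h7⟩ := hF ρ h3
    exact ⟨h5, h6, h4, (le_abs_self _).trans h7⟩
  have h3 : (N.card : ℝ) ≤ B := card_le_neg h fun ρ hρ => by
    obtain ⟨h3, h4⟩ := mem_filter.1 hρ
    obtain ⟨h5, h6, h7⟩ := hF ρ h3
    exact ⟨h5, h6, h4, (abs_le.1 h7).1⟩
  have h4 : (F.card : ℝ) ≤ P.card + N.card + (Pool.Agent.Y23.isZ_finite 0).toFinset.card := by
    exact_mod_cast h1
  linarith

theorem fwd (h1 : S_Up) {ψ : ℝ → ℝ} (hψ : Bump ψ) {D : ℝ → ℝ} (hD : ContinuousOn D (Set.Ioc (1 / 2) 1))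
    (hD0 : ∀ σ : ℝ, 1 / 2 < σ → σ ≤ 1 → 0 ≤ D σ)
    (h : ∀ σ e : ℝ, 1 / 2 < σ → σ ≤ 1 → 0 < e → ∃ T0 : ℝ, ∀ T : ℝ, T0 ≤ T → AtMost (Zr σ T) (T ^ (D σ + e)))
    {σ e : ℝ} (hσ : 1 / 2 < σ) (hσ1 : σ ≤ 1) (he : 0 < e) :
    ∃ C0 : ℝ, ∀ C : ℝ, C0 ≤ C → ∃ A : ℝ, ∀ a : ℝ, A ≤ a → Idx ψ C a (σ - 1 / 2) ((Ht C a) ^ (D σ + e)) := by
  classical
  obtain ⟨d, hd, hd'⟩ := near hD hσ hσ1 (show 0 < e / 4 by linarith)
  have hDσ := hD0 σ hσ hσ1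
  have hq : 0 < D σ + e / 2 := by linarith
  obtain ⟨δ, hδ0, hδd, hδ2⟩ : ∃ δ : ℝ, 0 < δ ∧ δ < d ∧ δ * (D σ + e / 2) ≤ e / 4 := by
    refine ⟨min (d / 2) (e / 4 / (D σ + e / 2)), lt_min (by linarith) (by positivity),
      lt_of_le_of_lt (min_le_left _ _) (by linarith), ?_⟩
    rw [← le_div_iff₀ hq]
    exact min_le_right _ _
  obtain ⟨hs, hDs⟩ := hd' δ hδ0 hδd
  have hexp : (1 + δ) * (D (σ - δ) + e / 4) ≤ D σ + 3 * e / 4 := by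
    have h2 : (1 + δ) * (D (σ - δ) + e / 4) ≤ (1 + δ) * (D σ + e / 2) :=
      mul_le_mul_of_nonneg_left (by linarith) (by linarith)
    linarith
  have hs1 : σ - δ ≤ 1 := by linarith
  obtain ⟨T0, hT0⟩ := h (σ - δ) (e / 4) hs hs1 (by linarith)
  obtain ⟨C0, hC0⟩ := h1 ψ δ hψ hδ0
  refine ⟨max C0 1, fun C hC => ?_⟩
  have hC1 : (0 : ℝ) < C := lt_of_lt_of_le one_pos ((le_max_right _ _).trans hC)
  obtain ⟨A, hA⟩ := hC0 C ((le_max_left _ _).trans hC)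
  set K : ℝ := ((Pool.Agent.Y23.isZ_finite 0).toFinset.card : ℝ) with hK
  have hK0 : 0 ≤ K := Nat.cast_nonneg _
  have hTt := Ht_tendsto hC1
  have hev : ∀ᶠ a in atTop, A ≤ a ∧ T0 ≤ Ht C a ∧ 1 ≤ Ht C a ∧ K + 2 ≤ (Ht C a) ^ (e / 4) := by
    filter_upwards [eventually_ge_atTop A, hTt.eventually_ge_atTop T0, hTt.eventually_ge_atTop 1,
      ((tendsto_rpow_atTop (show 0 < e / 4 by linarith)).comp hTt).eventually_ge_atTop (K + 2)]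
      with a g1 g2 g3 g4
    exact ⟨g1, g2, g3, g4⟩
  obtain ⟨A1, hA1⟩ := eventually_atTop.1 hev
  refine ⟨A1, fun a ha => ?_⟩
  obtain ⟨g1, g2, g3, g4⟩ := hA1 a ha
  set T : ℝ := Ht C a with hT
  have hT0' : 0 < T := Ht_pos C a
  have hfin : {ρ : ℂ | (IsZ ρ ∧ |ρ.im| ≤ T ^ (1 + δ)) ∧ σ - δ < ρ.re}.Finite :=
    (Pool.Agent.Y23.isZ_finite (T ^ (1 + δ))).subset fun ρ hρ => hρ.1
  set F : Finset ℂ := hfin.toFinset with hF
  have hTT : T ≤ T ^ (1 + δ) := by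
    have := Real.rpow_le_rpow_of_exponent_le g3 (show (1 : ℝ) ≤ 1 + δ by linarith)
    rwa [Real.rpow_one] at this
  have hcard := card_all (hT0 (T ^ (1 + δ)) (g2.trans hTT)) (F := F) fun ρ hρ => by
    have h3 : (IsZ ρ ∧ |ρ.im| ≤ T ^ (1 + δ)) ∧ σ - δ < ρ.re := by
      rw [hF, Set.Finite.mem_toFinset] at hρ
      exact hρ
    exact ⟨h3.1.1, h3.2.le, h3.1.2⟩
  have hm : (F.card : ℝ) ≤ T ^ (D σ + e) := by
    have e1 : (T ^ (1 + δ)) ^ (D (σ - δ) + e / 4) ≤ T ^ (D σ + 3 * e / 4) := by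
      rw [← Real.rpow_mul hT0'.le]
      exact Real.rpow_le_rpow_of_exponent_le g3 hexp
    have e2 : (1 : ℝ) ≤ T ^ (D σ + 3 * e / 4) := Real.one_le_rpow g3 (by linarith)
    have e3 : T ^ (D σ + e) = T ^ (e / 4) * T ^ (D σ + 3 * e / 4) := by
      rw [← Real.rpow_add hT0']
      congr 1
      ring
    rw [e3]
    calc (F.card : ℝ) ≤ 2 * (T ^ (1 + δ)) ^ (D (σ - δ) + e / 4) + K := hcard
      _ ≤ 2 * T ^ (D σ + 3 * e / 4) + K * T ^ (D σ + 3 * e / 4) := by nlinarith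
      _ = (K + 2) * T ^ (D σ + 3 * e / 4) := by ring
      _ ≤ T ^ (e / 4) * T ^ (D σ + 3 * e / 4) := mul_le_mul_of_nonneg_right g4 (by linarith)
  choose L hL using fun j : Fin F.card => ext_TT a (((F.equivFin.symm j : F) : ℂ) - 1 / 2)
  unfold Idx
  refine ⟨F.card, L, hm, fun g hg hLg => ?_⟩
  refine hA a (σ - 1 / 2) g1 (by linarith) (by linarith) g hg fun ρ h3 h4 => ?_
  have hρF : (ρ : ℂ) ∈ F := by
    rw [hF, Set.Finite.mem_toFinset]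
    refine ⟨⟨ρ.2, h4⟩, ?_⟩
    have := lt_of_le_of_lt (le_max_left _ _) h3
    linarith
  have h5 := hL (F.equivFin ⟨(ρ : ℂ), hρF⟩) g hg
  rw [hLg, Equiv.symm_apply_apply] at h5
  exact h5.symm

theorem large {C C1 e A1 A2 : ℝ} (hC : 0 < C) (hC1 : 0 < C1) (he : 0 < e) :
    ∃ T0 : ℝ, ∀ T : ℝ, T0 ≤ T → 1 ≤ T ∧ A1 ≤ C * Real.log T / 2 ∧ A2 ≤ C * Real.log T / 2 ∧
      C1 * (C * Real.log T / 2) ^ 2 ≤ T ^ (e / 2) := by
  have ht : Tendsto (fun T : ℝ => C * Real.log T / 2) atTop atTop := by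
    have h : (fun T : ℝ => C * Real.log T / 2) = fun T : ℝ => (C / 2) * Real.log T := by
      funext T
      ring
    rw [h]
    exact Real.tendsto_log_atTop.const_mul_atTop (by positivity)
  have hev : ∀ᶠ T : ℝ in atTop, 1 ≤ T ∧ A1 ≤ C * Real.log T / 2 ∧ A2 ≤ C * Real.log T / 2 ∧
      C1 * (C * Real.log T / 2) ^ 2 ≤ T ^ (e / 2) := by
    filter_upwards [eventually_ge_atTop (1 : ℝ), ht.eventually_ge_atTop A1, ht.eventually_ge_atTop A2,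
      (tendsto_rpow_atTop (show 0 < e / 4 by linarith)).eventually_ge_atTop (16 * C1 * C ^ 2 / e ^ 2)]
      with T g1 g2 g3 g4
    refine ⟨g1, g2, g3, ?_⟩
    have hT : 0 < T := by linarith
    have h1 : 0 ≤ Real.log T := Real.log_nonneg g1
    have h2 : Real.log T ≤ T ^ (e / 8) / (e / 8) := Real.log_le_rpow_div hT.le (by linarith)
    have h3 : Real.log T ^ 2 ≤ (T ^ (e / 8) / (e / 8)) ^ 2 := pow_le_pow_left₀ h1 h2 2
    have h4 : (T ^ (e / 8) / (e / 8)) ^ 2 = 64 / e ^ 2 * T ^ (e / 4) := by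
      rw [div_pow, ← Real.rpow_natCast (T ^ (e / 8)), ← Real.rpow_mul hT.le]
      rw [show e / 8 * ((2 : ℕ) : ℝ) = e / 4 by push_cast; ring]
      field_simp
      ring
    have h5 : T ^ (e / 2) = T ^ (e / 4) * T ^ (e / 4) := by
      rw [← Real.rpow_add hT]
      congr 1
      ring
    have h6 : 0 < T ^ (e / 4) := Real.rpow_pos_of_pos hT _
    rw [h5]
    calc C1 * (C * Real.log T / 2) ^ 2 = C1 * C ^ 2 / 4 * Real.log T ^ 2 := by ring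
      _ ≤ C1 * C ^ 2 / 4 * (64 / e ^ 2 * T ^ (e / 4)) := by
        rw [← h4]
        exact mul_le_mul_of_nonneg_left h3 (by positivity)
      _ = 16 * C1 * C ^ 2 / e ^ 2 * T ^ (e / 4) := by ring
      _ ≤ T ^ (e / 4) * T ^ (e / 4) := mul_le_mul_of_nonneg_right g4 h6.le
  exact eventually_atTop.1 hev

theorem bwd (h2 : S_Dw) {ψ : ℝ → ℝ} (hψ : Bump ψ) {D : ℝ → ℝ} (hD : ContinuousOn D (Set.Ioc (1 / 2) 1))
    (h : ∀ σ e : ℝ, 1 / 2 < σ → σ ≤ 1 → 0 < e → ∃ C0 : ℝ, ∀ C : ℝ, C0 ≤ C → ∃ A : ℝ, ∀ a : ℝ, A ≤ a →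
      Idx ψ C a (σ - 1 / 2) ((Ht C a) ^ (D σ + e)))
    {σ e : ℝ} (hσ : 1 / 2 < σ) (hσ1 : σ ≤ 1) (he : 0 < e) :
    ∃ T0 : ℝ, ∀ T : ℝ, T0 ≤ T → AtMost (Zr σ T) (T ^ (D σ + e)) := by
  obtain ⟨d, hd, hd'⟩ := near hD hσ hσ1 (show 0 < e / 4 by linarith)
  obtain ⟨δ, hδ0, hδd, hδ2⟩ : ∃ δ : ℝ, 0 < δ ∧ δ < d ∧ δ ≤ 1 / 2 :=
    ⟨min (d / 2) (1 / 2), lt_min (by linarith) (by norm_num),
      lt_of_le_of_lt (min_le_left _ _) (by linarith), min_le_right _ _⟩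
  obtain ⟨hs, hDs⟩ := hd' δ hδ0 hδd
  obtain ⟨Ca, hCa⟩ := h (σ - δ) (e / 4) hs (by linarith) (by linarith)
  obtain ⟨Cb, C1, hC1, hCb⟩ := h2 ψ δ hψ hδ0 hδ2
  set C : ℝ := max (max Ca Cb) 1 with hCdef
  have hC0 : 0 < C := lt_of_lt_of_le one_pos (le_max_right _ _)
  obtain ⟨A1, hA1⟩ := hCa C ((le_max_left _ _).trans (le_max_left _ _))
  obtain ⟨A2, hA2⟩ := hCb C ((le_max_right _ _).trans (le_max_left _ _))
  obtain ⟨T0, hT0⟩ := large (A1 := A1) (A2 := A2) hC0 hC1 he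
  refine ⟨T0, fun T hT => ?_⟩
  intro F hF
  obtain ⟨g1, g2, g3, g4⟩ := hT0 T hT
  have hTp : 0 < T := by linarith
  have hHt : Ht C (C * Real.log T / 2) = T := Ht_log hC0 hTp
  obtain ⟨m, L, hm, hL⟩ := hA1 _ g2
  rw [hHt] at hm
  have key := hA2 (C * Real.log T / 2) (σ - δ - 1 / 2) g3 (by linarith) m L hL F fun ρ hρ => by
    obtain ⟨k1, k2, k3, k4⟩ := mem_Zr.1 (hF ρ hρ)
    have k5 : ρ.re < 1 := by
      by_contra hc
      exact riemannZeta_ne_zero_of_one_le_re (not_lt.1 hc) k1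
    refine ⟨⟨k1, by linarith, k5⟩, ?_, ?_⟩
    · rw [abs_of_pos (by linarith)]
      linarith
    · rw [hHt, abs_of_pos k3]
      exact k4
  have hsum : (∑ ρ ∈ F, analyticOrderNatAt riemannZeta ρ) = ∑ ρ ∈ F, mu ρ := rfl
  rw [hsum]
  have hD1 : T ^ (D (σ - δ) + e / 4) ≤ T ^ (D σ + e / 2) :=
    Real.rpow_le_rpow_of_exponent_le g1 (by linarith)
  have e3 : T ^ (D σ + e) = T ^ (e / 2) * T ^ (D σ + e / 2) := by
    rw [← Real.rpow_add hTp]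
    congr 1
    ring
  rw [e3]
  calc ((∑ ρ ∈ F, mu ρ : ℕ) : ℝ) ≤ C1 * (C * Real.log T / 2) ^ 2 * m := key
    _ ≤ C1 * (C * Real.log T / 2) ^ 2 * T ^ (D σ + e / 2) :=
      mul_le_mul_of_nonneg_left (hm.trans hD1) (by positivity)
    _ ≤ T ^ (e / 2) * T ^ (D σ + e / 2) :=
      mul_le_mul_of_nonneg_right g4 (Real.rpow_nonneg hTp.le _)

theorem dn (h1 : S_Up) (h2 : S_Dw) : S_Dn := by
  intro ψ hψ D hD hD0
  constructor
  · intro h σ e hσ hσ1 he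
    exact fwd h1 hψ hD hD0 h hσ hσ1 he
  · intro h σ e hσ hσ1 he
    exact bwd h2 hψ hD h hσ hσ1 he

end Pool.Agent.Q31.SD
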